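import Pool.Agent.Lib.MP_10be03_gt.D
import Pool.Agent.Lib.MP_10be03_gt.A
import Pool.Agent.Lib.MP_10be03_gt.Z
import Pool.Agent.Lib.MP_10be03_gt.G
import Pool.Agent.Lib.MP_10be03_gt.H
import Pool.Agent.Lib.MP_10be03_gt.K

/-!
For every odd prime `p`, periodic complex K-theory with a primitive `p`-th root of unity adjoined
has an `E₂`-algebra structure.
-/

namespace Pool.Agent.Results.MP_10be03_gt.E2Structure

open Pool.Agent.Lib.E2

theorem result (p : ℕ) (hp : p.Prime) (h2 : p ≠ 2) : Final p :=
  final_of cell_main g_holds ku_holds k_holds d_holds a_holds p hp h2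

end Pool.Agent.Results.MP_10be03_gt.E2Structure
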