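import Pool.Agent.Lib.MP_10be03_gt.D
import Pool.Agent.Lib.MP_10be03_gt.G
import Pool.Agent.Lib.MP_10be03_gt.H
import Pool.Agent.Lib.MP_10be03_gt.K
import Pool.Agent.Lib.MP_10be03_gt.NH.Main

/-!
Every Nahm ring whose equations form a weakly regular sequence, over the integers and modulo every
prime, is realised by an `E₂`-ring over periodic complex K-theory.
-/

namespace Pool.Agent.Results.MP_10be03_gt.NahmRings

open Pool.Agent.Lib.E2 RingTheory.Sequence

theorem result (r : ℕ) (K : Matrix (Fin r) (Fin r) ℤ) (hK : K.IsSymm) (m : Finset (Fin r) → ℕ)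
    (h0 : IsWeaklyRegular (Laur r) (nahmSeq K m))
    (h1 : ∀ l : ℕ, l.Prime → IsWeaklyRegular (Laur r) ((l : Laur r) :: nahmSeq K m)) :
    Realises (NahmRing K m) fun c : Fin r => Ideal.Quotient.mk _ (-vm (Pi.single c 1)) :=
  nahm_of cell_main g_holds ku_holds k_holds d_holds r K hK m h0 h1

end Pool.Agent.Results.MP_10be03_gt.NahmRings
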